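import Mathlib
import Pool.Agent.Q7.LeonardDefs
import Pool.Agent.Q7.LeonardBasic

/-!
# Zero intersections between eigenspace sums for Leonard systems

Here `𝒜 = End V` with `dim V = d + 1`, so that `V` is the irreducible `𝒜`-module.
-/

set_option autoImplicit false

namespace Pool.Agent.Results.MP_105763_al.ZeroIntersection

open Module Q7.Leonard Polynomial

/-- For every Leonard system, every `0 ≤ r ≤ d` and every set `L` of at most `d - r` indices, the
subspaces `∑ i ≤ r, E* i V` and `∑ j ∈ L, E j V` have zero intersection. -/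
theorem result {K V : Type*} [Field K] [AddCommGroup V] [Module K V] {d : ℕ}
    (hV : finrank K V = d + 1) (A As : End K V) (θ θs : Fin (d + 1) → K)
    (h : IsLeonardSystem A As θ θs) (r : ℕ) (hr : r ≤ d) (L : Finset (Fin (d + 1)))
    (hL : L.card ≤ d - r) :
    (⨆ i : {i : Fin (d + 1) // (i : ℕ) ≤ r}, LinearMap.range (primIdem As θs i)) ⊓
      (⨆ j ∈ L, LinearMap.range (primIdem A θ j)) = ⊥ := by
  classical
  obtain ⟨v, hv⟩ := h.mf.exists_basis hV
  obtain ⟨w, hw⟩ := h.mfs.exists_basis hV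
  have hT := h.irrTri_s hw
  rw [eq_bot_iff]
  rintro x ⟨hx1, hx2⟩
  have h1 : x ∈ Submodule.span K (w '' {i | (i : ℕ) ≤ r}) := by
    refine (iSup_le fun i => ?_ : (⨆ i : {i : Fin (d + 1) // (i : ℕ) ≤ r},
      LinearMap.range (primIdem As θs i)) ≤ _) hx1
    rw [range_primIdem h.mfs.1 hw, Submodule.span_singleton_le_iff_mem]
    exact Submodule.subset_span ⟨_, i.2, rfl⟩
  have h2 : x ∈ Submodule.span K (v '' (L : Set (Fin (d + 1)))) := by
    refine (iSup₂_le fun j hj => ?_ : (⨆ j ∈ L, LinearMap.range (primIdem A θ j)) ≤ _) hx2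
    rw [range_primIdem h.mf.1 hv, Submodule.span_singleton_le_iff_mem]
    exact Submodule.subset_span ⟨j, hj, rfl⟩
  rw [v.mem_span_image] at h2
  obtain ⟨f, hf, rfl⟩ := hT.exists_poly r x h1
  have h3 : ∀ j ∈ Lᶜ, f.eval (θ j) = 0 := by
    intro j hj
    have h4 : v.repr (aeval A f (w 0)) j = 0 := by
      by_contra hcon
      exact (Finset.mem_compl.1 hj) (h2 (Finsupp.mem_support_iff.2 hcon))
    rw [repr_aeval hv] at h4
    exact (mul_eq_zero.1 h4).resolve_right (repr_ne_zero hv hT j)
  have hcard : r + 1 ≤ (Lᶜ).card := by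
    rw [Finset.card_compl, Fintype.card_fin]
    omega
  have hf0 : f = 0 := by
    refine eq_zero_of_degree_lt_of_eval_finset_eq_zero (Lᶜ.image θ) ?_ ?_
    · rw [Finset.card_image_of_injective _ h.mf.1]
      exact lt_of_lt_of_le hf (by exact_mod_cast hcard)
    · intro y hy
      obtain ⟨j, hj, rfl⟩ := Finset.mem_image.1 hy
      exact h3 j hj
  rw [hf0, map_zero, LinearMap.zero_apply]
  exact Submodule.zero_mem _

end Pool.Agent.Results.MP_105763_al.ZeroIntersection
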